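import Pool.Agent.Y209.QA.Top
import Pool.Agent.Y209.QA.Log

/-!
# A `ℚ`-acyclic surface of log-general type with `K (K + D) = 2`

The plane is blown up at the twelve triple points of the nine lines
`(x ^ 3 - y ^ 3) (y ^ 3 - z ^ 3) (z ^ 3 - x ^ 3) = 0` (the dual Hesse configuration), and `D` is
the sum of the strict transforms of the nine lines and of the exceptional curves over the four
points lying on one of the lines. The dual graph of `D` is a tree: a vertex of weight `-3`, its
four neighbours of weight `-1`, and two further vertices of weight `-3` attached to each of these.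
-/

namespace Pool.Agent.Results.MP_8f595d_ag.DualHesse

open Pool.Agent.Y209.QA
open Pool.Agent.Y209.Geo (P2)

/-- There are twelve points `q` of the plane, nine lines `a`, and four `e` of the twelve points,
such that, on the blow-up `V` of the plane at the points `q`, the sum `D` of the strict transforms
of the lines and of the four exceptional curves is a minimal simple normal crossings divisor and a
tree of rational curves, `X = V ∖ D` is `ℚ`-acyclic and of log-general type,
`K (K + D) = 10 - 3 r - ∑ D i ^ 2 = 2`, where `r = 13`, and `(K + D) ^ 2 = 0`. -/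
theorem result : ∃ (q : Fin 12 → P2) (a : Fin 9 → P2) (e : Fin 4 → Fin 12),
    IsSNC q a e ∧ (dualGraph q a e).IsTree ∧ IsMinimal q a e ∧
    QAcyclic (Surf q a e) ∧ LogGeneralType q a e ∧
    ip (KV 12) (KV 12 + clD q a e) = 2 ∧
    10 - 3 * 13 - ∑ c, ip (cls q a e c) (cls q a e c) = 2 ∧
    ip (KV 12 + clD q a e) (KV 12 + clD q a e) = 0 :=
  ⟨qq, ll, ee, isSNC, isTree, isMinimal, qacyclic, logGeneralType, ip_KD, by
    rw [self_sum]; norm_num, ip_KD_KD⟩

end Pool.Agent.Results.MP_8f595d_ag.DualHesse
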